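import Pool.Graph.R_seed8.W566.MZ.Stmts
import Pool.Graph.R_seed8.W21.MZ.ExA

/-!
# Project MD: the failure of Mazur's dimension conjecture is unbounded. Definitions and statements.

`MZ.*` are the definitions of the library (`Pool.Graph.R_seed8.W566.MZ.{Defs,Stmts}`).
-/

set_option autoImplicit false

namespace Pool.Agent.Helper74.MD

open NumberField IsDedekindDomain IsLocalRing MZ

/-! ## The coefficient rings `k⟦X_1, …, X_D⟧` -/

/-- `k⟦X_1, …, X_D⟧` -/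
abbrev PSr (k : Type) [Field k] (D : ℕ) : Type := MvPowerSeries (Fin D) k

/-- the constant coefficient -/
noncomputable abbrev cc (k : Type) [Field k] (D : ℕ) : PSr k D →+* k :=
  MvPowerSeries.constantCoeff

/-- constant matrices -/
noncomputable def CM (k : Type) [Field k] (D : ℕ) {n : ℕ} : GL (Fin n) k →* GL (Fin n) (PSr k D) :=
  Matrix.GeneralLinearGroup.map (MvPowerSeries.C (σ := Fin D) (R := k))

/-- `{g : ψ g ≡ 1 mod 𝔪 ^ m}` is open for all `m` -/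
def Ctn {P : Type} [Group P] [TopologicalSpace P] {k : Type} [Field k] {D n : ℕ}
    (ψ : P →* GL (Fin n) (PSr k D)) : Prop :=
  ∀ m : ℕ, IsOpen {g : P | ∀ a b : Fin n,
    ((ψ g : Matrix (Fin n) (Fin n) (PSr k D)) - 1) a b ∈ maximalIdeal (PSr k D) ^ m}

lemma complete_field (k : Type) [Field k] : IsAdicComplete (maximalIdeal k) k := by
  have h : maximalIdeal k = ⊥ := IsLocalRing.maximalIdeal_eq_bot
  rw [h]
  infer_instance

lemma complete (k : Type) [Field k] (D : ℕ) :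
    IsAdicComplete (maximalIdeal (PSr k D)) (PSr k D) := by
  haveI := complete_field k
  exact (Pool.Agent.W21.MZ.exA k (Fin D)).1

/-- `k⟦X_1, …, X_D⟧` as a coefficient ring -/
noncomputable def AD (k : Type) [Field k] [CharP k 2] (D : ℕ) [Fact (Nat.Prime 2)] : CNL 2 k where
  A := PSr k D
  complete := complete k D
  alg := ((MvPowerSeries.C (σ := Fin D) (R := k)).comp WittVector.constantCoeff).toAlgebra
  res := cc k D
  res_surj := fun a => ⟨MvPowerSeries.C a, MvPowerSeries.constantCoeff_C a⟩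
  res_coeff := fun x => MvPowerSeries.constantCoeff_C _

/-! ## Statements: limits and extensions -/

/-- LIM (model: `W402/MZ/Lim.lean`, the case `D = 1`, `u = 1`). -/
def S_LIM : Prop :=
  ∀ (P : Type) [Group P] [TopologicalSpace P] [IsTopologicalGroup P] [CompactSpace P]
    [TotallyDisconnectedSpace P] (ι : Type) (c : ι → P) (σ : P), TopGen c σ → Assign c σ →
    ∀ (k : Type) [Field k] [Finite k] [CharP k 2] (D n : ℕ) (t : ι → GL (Fin n) (PSr k D))
      (u : GL (Fin n) (PSr k D)),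
      (∀ i, t i * t i = 1) →
      (∀ i, Matrix.GeneralLinearGroup.map (cc k D) (t i) = 1) →
      Matrix.GeneralLinearGroup.map (cc k D) u = 1 →
      ∃ ψ : P →* GL (Fin n) (PSr k D),
        (∀ g, Matrix.GeneralLinearGroup.map (cc k D) (ψ g) = 1) ∧ Ctn ψ ∧
        (∀ i, ψ (c i) = t i) ∧ ψ σ = u

/-- the group-theoretic data: `G = P ⋊ A`, `P` the free pro-2 product of the involutions `c i` and
of `σ`, permuted by `A`; `a i` is the element of `A` which carries the base point `base (v i)` to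
`i`. -/
structure Dat (P G ι V : Type) [Group P] [TopologicalSpace P] [Group G] [TopologicalSpace G] where
  /-- the inclusion of `P` -/
  j : P →* G
  inj : Function.Injective j
  opn : IsOpenMap j
  cts : Continuous j
  nrm : j.range.Normal
  /-- the complement -/
  A : Subgroup G
  bot : A ⊓ j.range = ⊥
  dec : ∀ g : G, ∃ a ∈ A, ∃ q ∈ j.range, g = q * a
  /-- the involutions -/
  c : ι → P
  /-- the free generator -/
  σ : P
  inv : ∀ i, c i * c i = 1
  gen : TopGen c σ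
  asg : Assign c σ
  /-- the action of `A` on the index set -/
  π : G → ι → ι
  conj : ∀ b ∈ A, ∀ i, b * j (c i) * b⁻¹ = j (c (π b i))
  comm : ∀ b ∈ A, b * j σ * b⁻¹ = j σ
  a : ι → G
  a_mem : ∀ i, a i ∈ A
  v : ι → V
  a_pi : ∀ b ∈ A, ∀ i, a (π b i) = b * a i
  v_pi : ∀ b ∈ A, ∀ i, v (π b i) = v i
  base : V → ι
  a_base : ∀ x, a (base x) = 1
  v_base : ∀ x, v (base x) = x

/-- EXT (model: `extend_rep` and the lemmas before it in `W566/MZ/Asm1.lean`). -/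
def S_EXT : Prop :=
  ∀ (P G 𝒢 ι V : Type) [Group P] [TopologicalSpace P] [IsTopologicalGroup P]
    [Group G] [TopologicalSpace G] [IsTopologicalGroup G]
    [Group 𝒢] [TopologicalSpace 𝒢] [IsTopologicalGroup 𝒢] (Δ : Dat P G ι V)
    (res : 𝒢 →* G), Continuous res → Function.Surjective res →
    ∀ (k : Type) [Field k] (D n : ℕ) (ρbar : 𝒢 →* GL (Fin n) k), IsOpen (ρbar.ker : Set 𝒢) →
    (∀ g, res g ∈ Δ.j.range → ∃ a : k,
      (ρbar g : Matrix (Fin n) (Fin n) k) = a • (1 : Matrix (Fin n) (Fin n) k)) →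
    ∀ (t : ι → GL (Fin n) (PSr k D)) (u : GL (Fin n) (PSr k D)),
    (∀ g : 𝒢, res g ∈ Δ.A → ∀ i, t (Δ.π (res g) i) = CM k D (ρbar g) * t i * (CM k D (ρbar g))⁻¹) →
    (∀ g : 𝒢, res g ∈ Δ.A → CM k D (ρbar g) * u * (CM k D (ρbar g))⁻¹ = u) →
    ∀ ψ : P →* GL (Fin n) (PSr k D),
    (∀ g, Matrix.GeneralLinearGroup.map (cc k D) (ψ g) = 1) → Ctn ψ →
    (∀ i, ψ (Δ.c i) = t i) → ψ Δ.σ = u →
    ∃ ρ : 𝒢 →* GL (Fin n) (PSr k D),
      (∀ g, Matrix.GeneralLinearGroup.map (cc k D) (ρ g) = ρbar g) ∧ Ctn ρ ∧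
      (∀ g : 𝒢, ∀ q : P, ∀ a ∈ Δ.A, res g = Δ.j q * a → ρ g = ψ q * CM k D (ρbar g))

/-! ## Statements: wreath products -/

/-- CHI: the character of `G` which is trivial on the involutions and on `A`. -/
def S_CHI : Prop :=
  ∀ (P G ι V : Type) [Group P] [TopologicalSpace P] [IsTopologicalGroup P]
    [Group G] [TopologicalSpace G] [IsTopologicalGroup G] (Δ : Dat P G ι V) (m : ℕ),
    ∃ χ : G →* Multiplicative (ZMod (2 ^ m)), IsOpen (χ.ker : Set G) ∧
      (∀ i, χ (Δ.j (Δ.c i)) = 1) ∧ (∀ b ∈ Δ.A, χ b = 1) ∧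
      χ (Δ.j Δ.σ) = Multiplicative.ofAdd 1

/-- WRG: generation of the kernel. The generators of `P' = ker χ` are `σ ^ i c σ ^ (-i)`
(`0 ≤ i < 2 ^ m`) and `σ ^ (2 ^ m)`. -/
def S_WRG : Prop :=
  ∀ (P ι : Type) [Group P] [TopologicalSpace P] [IsTopologicalGroup P] [CompactSpace P]
    [TotallyDisconnectedSpace P] (c : ι → P) (σ : P), TopGen c σ →
    ∀ (m : ℕ) (χ : P →* Multiplicative (ZMod (2 ^ m))), IsOpen (χ.ker : Set P) →
    (∀ i, χ (c i) = 1) → χ σ = Multiplicative.ofAdd 1 →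
    ∀ (c' : Fin (2 ^ m) × ι → χ.ker) (σ' : χ.ker),
    (∀ x, (c' x : P) = σ ^ (x.1 : ℕ) * c x.2 * (σ ^ (x.1 : ℕ))⁻¹) → (σ' : P) = σ ^ (2 ^ m) →
    TopGen c' σ'

/-- WRA: freeness of the kernel, by wreath products of finite 2-groups. -/
def S_WRA : Prop :=
  ∀ (P ι : Type) [Group P] [TopologicalSpace P] [IsTopologicalGroup P] [CompactSpace P]
    [TotallyDisconnectedSpace P] (c : ι → P) (σ : P), Assign c σ →
    ∀ (m : ℕ) (χ : P →* Multiplicative (ZMod (2 ^ m))), IsOpen (χ.ker : Set P) →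
    (∀ i, χ (c i) = 1) → χ σ = Multiplicative.ofAdd 1 → TopGen c σ →
    ∀ (c' : Fin (2 ^ m) × ι → χ.ker) (σ' : χ.ker),
    (∀ x, (c' x : P) = σ ^ (x.1 : ℕ) * c x.2 * (σ ^ (x.1 : ℕ))⁻¹) → (σ' : P) = σ ^ (2 ^ m) →
    Assign c' σ'

/-- SUB: the data for the subgroups of index `2 ^ m`. -/
def S_SUB : Prop :=
  S_CHI → S_WRG → S_WRA →
  ∀ (P G ι V : Type) [Group P] [TopologicalSpace P] [IsTopologicalGroup P] [CompactSpace P]
    [TotallyDisconnectedSpace P]
    [Group G] [TopologicalSpace G] [IsTopologicalGroup G] (Δ : Dat P G ι V) (m : ℕ),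
    ∃ χ : G →* Multiplicative (ZMod (2 ^ m)), IsOpen (χ.ker : Set G) ∧ Function.Surjective χ ∧
      (∀ i, χ (Δ.j (Δ.c i)) = 1) ∧
      ∃ Δ' : Dat ↥(χ.comp Δ.j).ker ↥χ.ker (Fin (2 ^ m) × ι) (Fin (2 ^ m) × V),
        ∀ g : ↥χ.ker, g ∈ Δ'.j.range ↔ (g : G) ∈ Δ.j.range

/-! ## Statements: dimension -/

/-- BURN: Burnside's theorem. -/
def S_BURN : Prop :=
  ∀ (k : Type) [Field k] (G : Type) [Group G] (n : ℕ) (ρbar : G →* GL (Fin n) k), AbsIrred ρbar →
    Submodule.span k (Set.range fun g => (ρbar g : Matrix (Fin n) (Fin n) k)) = ⊤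

/-- DIM: a chain of `D + 1` prime ideals. -/
def S_DIM : Prop :=
  ∀ (k : Type) [Field k] (D : ℕ) (R : Type) [CommRing R] (f : R →+* PSr k D) (I : Ideal R),
    (∀ x ∈ I, f x = 0) → ∀ T : Fin D → R,
    (∀ j, ∃ a : k, a ≠ 0 ∧ (f (T j) = MvPowerSeries.C a * MvPowerSeries.X j ∨
      ∃ i < j, f (T j) = MvPowerSeries.C a * MvPowerSeries.X i * MvPowerSeries.X j)) →
    (D : WithBot ℕ∞) ≤ ringKrullDim (R ⧸ I)

/-- TR: a lift to `k⟦X_1, …, X_D⟧` gives a homomorphism of the universal deformation ring with the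
right values on traces. -/
def S_TR : Prop :=
  ∀ [Fact (Nat.Prime 2)] (k : Type) [Field k] [Finite k] [CharP k 2]
    (G : Type) [Group G] [TopologicalSpace G] (n D : ℕ) (ρbar : G →* GL (Fin n) k)
    (ρ : G →* GL (Fin n) (PSr k D)),
    (∀ g, Matrix.GeneralLinearGroup.map (cc k D) (ρ g) = ρbar g) → Ctn ρ →
    ∀ (R : CNL 2 k) (ρu : G →* GL (Fin n) R.A), IsUniversal ρbar R ρu →
    ∃ f : R.A →+* PSr k D, (∀ x ∈ Ideal.span {((2 : ℕ) : R.A)}, f x = 0) ∧
      (∀ a : k, ∃ x : R.A, f x = MvPowerSeries.C a) ∧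
      ∀ g, f ((ρu g : Matrix (Fin n) (Fin n) R.A).trace) =
        (ρ g : Matrix (Fin n) (Fin n) (PSr k D)).trace

/-- MAIN: the lower bound for the dimension from the group-theoretic data. -/
def S_MAIN : Prop :=
  S_LIM → S_EXT → S_BURN → S_DIM → S_TR →
  ∀ [Fact (Nat.Prime 2)] (P G 𝒢 ι V : Type) [Group P] [TopologicalSpace P] [IsTopologicalGroup P]
    [CompactSpace P] [TotallyDisconnectedSpace P]
    [Group G] [TopologicalSpace G] [IsTopologicalGroup G]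
    [Group 𝒢] [TopologicalSpace 𝒢] [IsTopologicalGroup 𝒢] [Fintype V] (Δ : Dat P G ι V)
    (res : 𝒢 →* G), Continuous res → Function.Surjective res →
    ∀ (k : Type) [Field k] [Finite k] [CharP k 2] (ρbar : 𝒢 →* GL (Fin 3) k),
    IsOpen (ρbar.ker : Set 𝒢) → AbsIrred ρbar →
    (∀ g, res g ∈ Δ.j.range → ∃ a : k,
      (ρbar g : Matrix (Fin 3) (Fin 3) k) = a • (1 : Matrix (Fin 3) (Fin 3) k)) →
    ∀ (R : CNL 2 k) (ρu : 𝒢 →* GL (Fin 3) R.A), IsUniversal ρbar R ρu →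
      ((1 + 4 * Fintype.card V : ℕ) : WithBot ℕ∞) ≤
        ringKrullDim (R.A ⧸ Ideal.span {((2 : ℕ) : R.A)})

/-! ## Statements: fields -/

/-- ASM: the group-theoretic data of a Galois extension (model: the first part of the proof of
`MZ.asm2` in `W566/MZ/Asm2.lean`, up to `hσc`; there `[L : F] = 9`). -/
def S_ASM : Prop :=
  ∀ (F L E : Type) [Field F] [NumberField F] [Field L] [NumberField L] [Field E]
    [Algebra F L] [Algebra L E] [Algebra F E] [IsScalarTower F L E]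
    [FiniteDimensional F L] [IsGalois F L] [IsGalois F E] [IsGalois L E],
    Module.finrank F L = 9 → (∀ τ : L →+* ℂ, ComplexEmbedding.IsReal τ) →
    ∀ (r : E), r ^ 2 = 2 → r ∉ (algebraMap L E).range → ProTwo Gal(E/L) →
    (∀ (φ : (L →+* ℂ) → (E →+* ℂ)) (c : (L →+* ℂ) → Gal(E/L)),
      (∀ τ, (φ τ).comp (algebraMap L E) = τ) → (∀ τ, ComplexEmbedding.IsConj (φ τ) (c τ)) →
      ∀ N : Subgroup Gal(E/L), N.Normal → IsOpen (N : Set Gal(E/L)) →
        2 ^ (∑ τ, orb N (c τ) + 1) ≤ numHom2 N) →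
    (∀ (φ : (L →+* ℂ) → (E →+* ℂ)) (c : (L →+* ℂ) → Gal(E/L)) (σ : Gal(E/L)),
      (∀ τ, (φ τ).comp (algebraMap L E) = τ) → (∀ τ, ComplexEmbedding.IsConj (φ τ) (c τ)) →
      (∀ r : E, r ^ 2 = 2 → σ r ≠ r) → TopGen c σ) →
    ∃ Δ : Dat Gal(E/L) Gal(E/F) (L →+* ℂ) (F →+* ℂ),
      (∀ g : Gal(E/F), g ∈ Δ.j.range ↔ ∀ x : L, g (algebraMap L E x) = algebraMap L E x) ∧
      ∀ v : F →+* ℂ, ∃ φ : E →+* ℂ, φ.comp (algebraMap F E) = v ∧
        ComplexEmbedding.IsConj φ (Δ.j (Δ.c (Δ.base v)))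

/-- FLD: the fixed field `F'` of an open subgroup `U` of `Gal(E/F)`, `E ≤ F_S`, as a base field.
`S'` are the places of `F'` above `S`. -/
def S_FLD : Prop :=
  ∀ (F Ω : Type) [Field F] [NumberField F] [Field Ω] [Algebra F Ω] [IsAlgClosure F Ω]
    (S : Set (HeightOneSpectrum (𝓞 F))), S.Finite →
    (∀ v : HeightOneSpectrum (𝓞 F), (2 : 𝓞 F) ∈ v.asIdeal → v ∈ S) →
    ∀ (E : IntermediateField F Ω) [IsGalois F E] (hE : E ≤ FSmax S) (U : Subgroup Gal(E/F)),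
    IsOpen (U : Set Gal(E/F)) →
    -- all complex conjugations are in `U`
    (∀ (φ : E →+* ℂ) (g : Gal(E/F)), ComplexEmbedding.IsConj φ g → g ∈ U) →
    (∀ v : F →+* ℂ, ComplexEmbedding.IsReal v) →
    ∃ (F' : Type) (_ : Field F') (_ : NumberField F') (_ : Algebra F F') (_ : Algebra F' Ω)
      (_ : IsScalarTower F F' Ω) (_ : IsAlgClosure F' Ω)
      (S' : Set (HeightOneSpectrum (𝓞 F'))),
      S'.Finite ∧ (∀ v : HeightOneSpectrum (𝓞 F'), (2 : 𝓞 F') ∈ v.asIdeal → v ∈ S') ∧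
      Module.finrank ℚ F' = U.index * Module.finrank ℚ F ∧
      (∀ φ : F' →+* ℂ, ComplexEmbedding.IsReal φ) ∧
      ∃ (res : GFS Ω S' →* U) (pr : GFS Ω S' →* GFS Ω S),
        Continuous res ∧ Function.Surjective res ∧ Continuous pr ∧
        (∀ (g : GFS Ω S') (x : Ω) (hx : x ∈ E), ((pr g ⟨x, hE hx⟩ : _) : Ω) =
          ((res g : Gal(E/F)) ⟨x, hx⟩ : _)) ∧
        ∀ h : GFS Ω S, (∃ u ∈ U, ∀ (x : Ω) (hx : x ∈ E),
          ((h ⟨x, hE hx⟩ : _) : Ω) = (u ⟨x, hx⟩ : _)) → ∃ g, pr g = h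

/-- DEL (model: `W505/MZ/Delta.lean`): `δ = 1` for a totally real field if `ρbar` is trivial on the
involutions. -/
def S_DEL : Prop :=
  ∀ (F Ω : Type) [Field F] [NumberField F] [Field Ω] [Algebra F Ω] [IsAlgClosure F Ω]
    (S : Set (HeightOneSpectrum (𝓞 F))) (k : Type) [Field k] (ρbar : GFS Ω S →* GL (Fin 3) k),
    (∀ φ : F →+* ℂ, ComplexEmbedding.IsReal φ) →
    (∀ g : GFS Ω S, g * g = 1 → ρbar g = 1) →
    ∀ w : InfinitePlace F → InfinitePlace (FSmax S : IntermediateField F Ω),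
      (∀ v : InfinitePlace F, (w v).comap (algebraMap F (FSmax S : IntermediateField F Ω)) = v) →
      delta S ρbar w = 1

end Pool.Agent.Helper74.MD
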